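import Pool.Agent.Lib.coEt.Lower

/-!
MP_e8b93a_co: the answer to Q1 is yes for all graphs in which the vertices of degree at least four
lie in components which are complete bipartite graphs `K_(m,n)` with `m, n ≥ 3`
(and which have at least one such component).
-/

namespace Pool.Agent.Results.MP_e8b93a_co.CompleteBipartite

open coEt

/-- Let `K` be a nonempty union of components of `G` such that every walk of length three in `K` closes
up (the components in `K` are complete bipartite) and every vertex of `K` has degree at least `3`,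
and suppose that all vertices outside `K` have degree at most `3`. Then Alice wins the eternal
colouring game on `G` with every number `k ≥ 5` of colours and does not win with `k ≤ 3`; so if
she wins with `k` colours, then she wins with `k + 1` colours. -/
theorem result (V : Type) [Fintype V] [DecidableEq V] (G : SimpleGraph V) (K : Set V)
    (hK : ∀ v w, G.Adj v w → v ∈ K → w ∈ K)
    (hwalk : ∀ a ∈ K, ∀ b c d, G.Adj a b → G.Adj b c → G.Adj c d → G.Adj a d)
    (hdeg : ∀ v ∈ K, 3 ≤ (G.neighborSet v).ncard)
    (hlow : ∀ v, v ∉ K → (G.neighborSet v).ncard ≤ 3)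
    (hne : K.Nonempty) :
    (∀ k, 5 ≤ k → AliceWins G k) ∧ (∀ k, k ≤ 3 → ¬ AliceWins G k) ∧
      ∀ k, AliceWins G k → AliceWins G (k + 1) := by
  haveI : Nonempty V := ⟨hne.some⟩
  have h5 : ∀ k, 5 ≤ k → AliceWins G k := fun k hk =>
    aliceWins_of_five_le ⟨hK, hwalk⟩ hdeg hlow hk
  have h3 : ∀ k, k ≤ 3 → ¬ AliceWins G k := fun k hk =>
    not_aliceWins_of_le_three ⟨hK, hwalk⟩ hdeg hne hk
  refine ⟨h5, h3, fun k hw => h5 (k + 1) ?_⟩
  by_contra hlt
  exact h3 k (by omega) hw

end Pool.Agent.Results.MP_e8b93a_co.CompleteBipartite
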