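import Pool.Agent.Lib.coEt.Gen

/-!
MP_e8b93a_co: graphs whose vertices of large degree come in few large classes of false twins.
-/

namespace Pool.Agent.Results.MP_e8b93a_co.FewTwinClasses

open coEt

/-- Suppose that every vertex of degree at least `k - 1` of the finite graph `G` has the same
neighbourhood as at least two other vertices, and that the number `q` of different neighbourhoods
of such vertices satisfies `4 q - 1 ≤ k`. Then Alice wins the eternal colouring game on `G` with
every number `j ≥ k` of colours. -/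
theorem result (V : Type) [Fintype V] [DecidableEq V] [Nonempty V] (G : SimpleGraph V) (k : ℕ)
    (htw : ∀ v, k ≤ (G.neighborSet v).ncard + 1 →
      3 ≤ {u : V | G.neighborSet u = G.neighborSet v}.ncard)
    (hq : 4 * {N : Set V | ∃ v, N = G.neighborSet v ∧ k ≤ N.ncard + 1}.ncard ≤ k + 1) :
    ∀ j, k ≤ j → AliceWins G j := by
  classical
  intro j hj
  have hTw : ∀ u v, Tw G u v ↔ G.neighborSet u = G.neighborSet v := by
    intro u v
    constructor
    · intro h
      ext w
      exact h w
    · intro h w
      have := Set.ext_iff.1 h w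
      exact this
  let K : Set V := {v | k ≤ (G.neighborSet v).ncard + 1}
  have hKT : TwC G K := by
    intro u v huv hu
    change k ≤ (G.neighborSet v).ncard + 1
    rw [← (hTw u v).1 huv]
    exact hu
  have hlow : ∀ v, v ∉ K → ∀ c : V → Option (Fin j), ∃ x, c v ≠ some x ∧
      ∀ w, G.Adj v w → c w ≠ some x := by
    intro v hv c
    apply low_adm
    have : ¬ k ≤ (G.neighborSet v).ncard + 1 := hv
    omega
  have hcl : ∀ v, {u : V | G.neighborSet u = G.neighborSet v} = ((cl G v : Finset V) : Set V) := by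
    intro v
    ext u
    rw [Finset.mem_coe, mem_cl, hTw]
    exact Iff.rfl
  have hcard : ∀ X ∈ Cl G K, 3 ≤ X.card := by
    intro X hX
    obtain ⟨v, hv, rfl⟩ := mem_Cl.1 hX
    have h1 := htw v hv
    rw [hcl, Set.ncard_coe_finset] at h1
    exact h1
  have hcount : (Cl G K).card ≤ {N : Set V | ∃ v, N = G.neighborSet v ∧ k ≤ N.ncard + 1}.ncard := by
    rw [← Set.ncard_coe_finset]
    refine Set.ncard_le_ncard_of_injOn
      (fun X => {w : V | ∃ u ∈ X, G.Adj u w}) ?_ ?_ (Set.toFinite _)
    · intro X hX
      obtain ⟨v, hv, rfl⟩ := mem_Cl.1 (Finset.mem_coe.1 hX)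
      have e1 : {w : V | ∃ u ∈ cl G v, G.Adj u w} = G.neighborSet v := by
        ext w
        constructor
        · rintro ⟨u, hu, huw⟩
          exact (mem_cl.1 hu w).1 huw
        · intro hw
          exact ⟨v, mem_cl.2 (Tw.refl v), hw⟩
      refine ⟨v, e1, ?_⟩
      change k ≤ ({w : V | ∃ u ∈ cl G v, G.Adj u w}).ncard + 1
      rw [e1]
      exact hv
    · intro X hX Y hY hXY
      obtain ⟨v, hv, rfl⟩ := mem_Cl.1 (Finset.mem_coe.1 hX)
      obtain ⟨w, hw, rfl⟩ := mem_Cl.1 (Finset.mem_coe.1 hY)
      have e1 : ∀ v : V, {w : V | ∃ u ∈ cl G v, G.Adj u w} = G.neighborSet v := by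
        intro v
        ext w
        constructor
        · rintro ⟨u, hu, huw⟩
          exact (mem_cl.1 hu w).1 huw
        · intro hw
          exact ⟨v, mem_cl.2 (Tw.refl v), hw⟩
      have h2 : {x : V | ∃ u ∈ cl G v, G.Adj u x} = {x : V | ∃ u ∈ cl G w, G.Adj u x} := hXY
      rw [e1, e1] at h2
      exact cl_eq ((hTw v w).2 h2)
  exact aliceWins_of_classes hKT hcard hlow (by omega)

end Pool.Agent.Results.MP_e8b93a_co.FewTwinClasses
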